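import Pool.Agent.Lib.MP_324817_lc.MpMain
import Pool.Agent.Lib.MP_324817_lc.HypDefs

namespace Pool.Agent.Results.MP_324817_lc.MinimalPair

open Pool.Agent.Lib.MP_324817_lc

theorem hypRed_refl (E : Baire → Baire → Prop) : HypRed E E := by
  have h : Dl (fun p : R × R => p.1 = p.2) :=
    (Dl.allN (P := fun (p : R × R) n => ap p.1 n = ap p.2 n)
      (Dl.eq (by fun_prop) (by fun_prop))).of_iff fun p => funext_iff.symm
  exact ⟨id, ⟨Sig.fs h.1, Sig.fs (S := fun x y => ¬ x = y) h.2⟩, fun _ _ => Iff.rfl⟩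

/-- Every hyperarithmetic equivalence relation `E` with two classes is incomparable with some
hyperarithmetic equivalence relation `F` with two classes such that, moreover, only the relation
with one class is both hyperarithmetically reducible to `F` and Borel reducible to `E`. -/
theorem result (E : Baire → Baire → Prop) (_hE : Equivalence E) (h : Hyp E)
    (h2 : ∃ x y, ¬ E x y) :
    ∃ F : Baire → Baire → Prop, Equivalence F ∧ Hyp F ∧ (∃ x y, ¬ F x y) ∧
      ¬ HypRed E F ∧ ¬ HypRed F E ∧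
      ∀ G : Baire → Baire → Prop, HypRed G F →
        (∃ g : Baire → Baire, Measurable g ∧ ∀ x y, G x y ↔ E (g x) (g y)) → ∀ x y, G x y := by
  obtain ⟨F, a, b, ⟨x, y, c⟩, d⟩ := main_pair (E := E) ⟨FS.sig h.1, FS.sig h.2⟩
  obtain ⟨x', y', c'⟩ := h2
  have key : ∀ G : Baire → Baire → Prop, HypRed G F →
      (∃ g : Baire → Baire, Measurable g ∧ ∀ x y, G x y ↔ E (g x) (g y)) → ∀ x y, G x y := by
    rintro G ⟨f, k, l⟩ ⟨g, k', l'⟩ x y
    exact (l x y).2 (d f g (FS.sig k.1) k' (fun x y => (l x y).symm.trans (l' x y)) x y)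
  exact ⟨F, a, ⟨Sig.fs b.1, Sig.fs (S := fun x y => ¬ F x y) b.2⟩, ⟨x, y, c⟩,
    fun k => c' (key E k ⟨id, measurable_id, fun _ _ => Iff.rfl⟩ x' y'),
    fun ⟨g, k, l⟩ => c (key F (hypRed_refl F) ⟨g, graph_measurable (FS.sig k.1), l⟩ x y), key⟩

/-- Every degree other than the least one is half of a minimal pair. -/
theorem minimal_pair (E : Baire → Baire → Prop) (hE : Equivalence E) (h : Hyp E)
    (h2 : ∃ x y, ¬ E x y) :
    ∃ F : Baire → Baire → Prop, Equivalence F ∧ Hyp F ∧ (∃ x y, ¬ F x y) ∧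
      ∀ G : Baire → Baire → Prop, HypRed G F → HypRed G E → ∀ x y, G x y := by
  obtain ⟨F, a, b, c, -, -, d⟩ := result E hE h h2
  exact ⟨F, a, b, c, fun G k ⟨g, k', l⟩ => d G k ⟨g, graph_measurable (FS.sig k'.1), l⟩⟩

/-- One relation is incomparable with each of finitely many given relations with two classes. -/
theorem finite_family (k : ℕ) (E : ℕ → Baire → Baire → Prop) (h : ∀ j < k, Hyp (E j))
    (h2 : ∀ j < k, ∃ x y, ¬ E j x y) :
    ∃ F : Baire → Baire → Prop, Equivalence F ∧ Hyp F ∧ (∃ x y, ¬ F x y) ∧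
      ∀ j < k, ¬ HypRed (E j) F ∧ ¬ HypRed F (E j) := by
  have hD : ∀ m ≤ k, Dl (fun p : R × R =>
      ∃ j < m, ap (left p.1) 0 = j ∧ E j (right p.1) (right p.2)) := by
    intro m hm
    induction m with
    | zero =>
      exact (Dl.zero (f := fun _ : R × R => 1) (by fun_prop)).of_iff fun p => by simp
    | succ m ih =>
      have h1 : Dl (fun p : R × R => E m p.1 p.2) := ⟨FS.sig (h m hm).1, FS.sig (h m hm).2⟩
      refine ((ih (by omega)).or ((Dl.eq (f := fun p : R × R => ap (left p.1) 0)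
        (g := fun _ => m) (by fun_prop) (by fun_prop)).and (h1.comp
          (f := fun p : R × R => (right p.1, right p.2)) (by fun_prop)))).of_iff fun p => ?_
      rw [Nat.exists_lt_succ_right]
  obtain ⟨F, a, b, ⟨x, y, c⟩, d⟩ := main_pair
    (E := fun x y => ∃ j < k, ap (left x) 0 = j ∧ E j (right x) (right y)) (hD k le_rfl)
  have key : ∀ j < k, ∀ G : Baire → Baire → Prop, HypRed G F → HypRed G (E j) → ∀ x y, G x y := by
    rintro j hj G ⟨f, k1, l1⟩ ⟨g, k2, l2⟩ x y
    have hg := graph_measurable (FS.sig k2.1)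
    refine (l1 x y).2 (d f (fun x => join (cst j) (g x)) (FS.sig k1.1)
      (measurable_pi_lambda _ fun n => ?_) (fun x y => ?_) x y)
    · unfold join
      split_ifs
      exacts [measurable_const, (measurable_pi_apply _).comp hg]
    · simp only [left_join, right_join, ← l1, l2]
      exact ⟨fun e => ⟨j, hj, rfl, e⟩, fun ⟨_, _, e1, e⟩ => (show j = _ from e1) ▸ e⟩
  refine ⟨F, a, ⟨Sig.fs b.1, Sig.fs (S := fun x y => ¬ F x y) b.2⟩, ⟨x, y, c⟩, fun j hj => ?_⟩
  obtain ⟨x', y', c'⟩ := h2 j hj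
  exact ⟨fun e => c' (key j hj _ e (hypRed_refl _) x' y'),
    fun e => c (key j hj F (hypRed_refl F) e x y)⟩

end Pool.Agent.Results.MP_324817_lc.MinimalPair
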